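import Pool.Agent.W172.MK.Stm

/-!
# MK-EE: characters of the elementary abelian 2-group
-/
set_option autoImplicit false

namespace Pool.Agent.W782.MK

open Pool.Agent.W172.MK

theorem sg_or (x : ZMod 2) : sg x = 1 ∨ sg x = -1 := by
  unfold sg
  split_ifs
  · left; rfl
  · right; rfl

theorem zmod2_cases (x : ZMod 2) : x = 0 ∨ x = 1 := by
  fin_cases x
  · left; rfl
  · right; rfl

theorem sg_zero : sg 0 = 1 := by unfold sg; rw [if_pos rfl]

theorem sg_one : sg 1 = -1 := by unfold sg; rw [if_neg (by decide)]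

theorem sg_add (x y : ZMod 2) : sg (x + y) = sg x * sg y := by
  have h11 : (1 : ZMod 2) + 1 = 0 := by decide
  rcases zmod2_cases x with rfl | rfl <;> rcases zmod2_cases y with rfl | rfl
  · rw [add_zero, sg_zero]; norm_num
  · rw [zero_add, sg_zero, sg_one]; norm_num
  · rw [add_zero, sg_zero, sg_one]; norm_num
  · rw [h11, sg_zero, sg_one]; norm_num

theorem ee_add {n : ℕ} (a a' b : V n) : ee (a + a') b = ee a b * ee a' b := by
  unfold ee
  rw [← sg_add, ← Finset.sum_add_distrib]
  congr 1
  refine Finset.sum_congr rfl fun i _ => ?_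
  rw [Pi.add_apply]
  ring

theorem ee_zero {n : ℕ} (b : V n) : ee 0 b = 1 := by
  unfold ee
  simp [sg_zero]

theorem ee_comm {n : ℕ} (a b : V n) : ee a b = ee b a := by
  unfold ee
  congr 1
  exact Finset.sum_congr rfl fun i _ => mul_comm _ _

theorem ee_single {n : ℕ} (i : Fin n) (b : V n) (hb : b i = 1) : ee (Pi.single i 1) b = -1 := by
  unfold ee
  have h : ∑ j, (Pi.single i (1 : ZMod 2) : V n) j * b j = 1 := by
    rw [Finset.sum_eq_single i]
    · rw [Pi.single_eq_same, hb, one_mul]
    · intro j _ hj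
      rw [Pi.single_eq_of_ne hj, zero_mul]
    · intro h; exact absurd (Finset.mem_univ i) h
  rw [h, sg_one]

theorem ee_facts : P_EE := by
  intro n
  refine ⟨fun a b => sg_or _, ee_comm, ee_add, ee_zero, ?_⟩
  intro b
  by_cases hb : b = 0
  · rw [if_pos hb, hb]
    have h1 : ∀ a : V n, ee a 0 = 1 := fun a => by rw [ee_comm, ee_zero]
    rw [Finset.sum_congr rfl fun a _ => h1 a, Finset.sum_const, nsmul_eq_mul, mul_one,
      Finset.card_univ]
    unfold qq
    rw [Fintype.card_fun, ZMod.card, Fintype.card_fin]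
    norm_num
  · rw [if_neg hb]
    obtain ⟨i, hi⟩ := Function.ne_iff.1 hb
    have hi1 : b i = 1 := by
      rcases zmod2_cases (b i) with h | h
      · exact absurd h hi
      · exact h
    have h2 : ∑ a : V n, ee (a + Pi.single i 1) b = ∑ a : V n, ee a b :=
      Equiv.sum_comp (Equiv.addRight (Pi.single i (1 : ZMod 2) : V n)) (fun a => ee a b)
    have h3 : ∑ a : V n, ee (a + Pi.single i 1) b = - ∑ a : V n, ee a b := by
      rw [← Finset.sum_neg_distrib]
      refine Finset.sum_congr rfl fun a _ => ?_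
      rw [ee_add, ee_single i b hi1]
      ring
    linarith

end Pool.Agent.W782.MK
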